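import Pool.Agent.P.MP_0354a7_al.PF.Stage
import Pool.Agent.P.MP_0354a7_al.PF.Reduce

set_option autoImplicit false

namespace Pool.Agent.Results.MP_0354a7_al.Perfect

/-- The group of `C^2` diffeomorphisms of the line with compact support. -/
def diffC2 : Subgroup (Equiv.Perm ℝ) where
  carrier := {f | ContDiff ℝ 2 (⇑f) ∧ ContDiff ℝ 2 (⇑f.symm) ∧ IsCompact (closure {x | f x ≠ x})}
  one_mem' := ⟨contDiff_id, contDiff_id, by simp⟩
  mul_mem' := by
    rintro a b ⟨ha1, ha2, ha3⟩ ⟨hb1, hb2, hb3⟩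
    refine ⟨ha1.comp hb1, hb2.comp ha2, (ha3.union hb3).of_isClosed_subset isClosed_closure ?_⟩
    rw [← closure_union]
    refine closure_mono fun x hx => ?_
    by_contra h
    simp only [Set.mem_union, Set.mem_ofPred_eq, not_or, not_not] at h
    exact hx (by rw [Equiv.Perm.mul_apply, h.2, h.1])
  inv_mem' := by
    rintro a ⟨ha1, ha2, ha3⟩
    refine ⟨ha2, ha1, ha3.of_isClosed_subset isClosed_closure (closure_mono fun x hx h => hx ?_)⟩
    rw [Equiv.Perm.inv_eq_iff_eq, h]

theorem mem_iff (f : Equiv.Perm ℝ) : f ∈ diffC2 ↔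
    ContDiff ℝ 2 (⇑f) ∧ ContDiff ℝ 2 (⇑f.symm) ∧ ∃ R : ℝ, ∀ x : ℝ, R < |x| → f x = x := by
  refine and_congr_right fun _ => and_congr_right fun _ => ⟨fun h => ?_, fun ⟨R, hR⟩ => ?_⟩
  · obtain ⟨R, hR⟩ := h.isBounded.exists_norm_le
    refine ⟨R, fun x hx => by_contra fun hne => ?_⟩
    exact absurd (hR x (subset_closure hne)) (not_le.2 hx)
  · refine (isCompact_closedBall (0 : ℝ) R).of_isClosed_subset isClosed_closure
      (closure_minimal (fun x hx => ?_) Metric.isClosed_closedBall)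
    rw [mem_closedBall_zero_iff]
    exact not_lt.1 fun h => hx (hR x h)

/-- The group of compactly supported `C^2` diffeomorphisms of the line is perfect. -/
theorem result : commutator diffC2 = ⊤ := by
  rw [eq_top_iff]
  rintro ⟨f, hf⟩ -
  have h := Pool.Agent.P.MP_0354a7_al.reduction' Pool.Agent.P.MP_0354a7_al.core' f
    ((mem_iff f).1 hf)
  have key : f ∈ (commutator diffC2).map diffC2.subtype := by
    refine (Subgroup.closure_le _).2 ?_ h
    rintro g ⟨a, b, ha, hb, rfl⟩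
    exact ⟨_, Subgroup.commutator_mem_commutator
      (Subgroup.mem_top (⟨a, (mem_iff a).2 ha⟩ : diffC2))
      (Subgroup.mem_top (⟨b, (mem_iff b).2 hb⟩ : diffC2)), rfl⟩
  obtain ⟨g, hg, e⟩ := key
  rwa [show (⟨f, hf⟩ : diffC2) = g from Subtype.ext e.symm]

end Pool.Agent.Results.MP_0354a7_al.Perfect
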